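import Pool.Agent.Y262.QE.Stm

/-!
# Project QE: a compact form is given by a compact operator
-/

set_option autoImplicit false

open Set Filter Topology

noncomputable section

namespace Pool.Agent.Y618.QE

open Pool.Agent.Y262.QE

section

variable {H : Type} [NormedAddCommGroup H] [InnerProductSpace ℝ H]

/-- Cauchy-Schwarz for a positive symmetric form -/
theorem cs_form (b : H →L[ℝ] H →L[ℝ] ℝ) (sb : ∀ u v, b u v = b v u) (nb : ∀ v, 0 ≤ b v v)
    (u w : H) : (b u w) ^ 2 ≤ b u u * b w w := by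
  have h : ∀ t : ℝ, 0 ≤ b w w * (t * t) + (2 * b u w) * t + b u u := by
    intro t
    have h1 := nb (u + t • w)
    have h2 : b (u + t • w) (u + t • w) = b w w * (t * t) + (2 * b u w) * t + b u u := by
      simp only [map_add, map_smul, _root_.add_apply, _root_.smul_apply,
        smul_eq_mul]
      rw [sb w u]
      ring
    rw [h2] at h1
    exact h1
  have h3 := discrim_le_zero h
  unfold discrim at h3
  nlinarith

variable [CompleteSpace H]

/-- the operator of a bounded form -/
def opT (b : H →L[ℝ] H →L[ℝ] ℝ) : H →L[ℝ] H :=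
  LinearMap.mkContinuous
    { toFun := fun u => (InnerProductSpace.toDual ℝ H).symm (b u)
      map_add' := fun u v => by simp
      map_smul' := fun c u => by simp } ‖b‖ (fun u => by
        simp only [LinearMap.coe_mk, AddHom.coe_mk, LinearIsometryEquiv.norm_map]
        exact b.le_opNorm u)

theorem inner_opT (b : H →L[ℝ] H →L[ℝ] ℝ) (u v : H) : inner ℝ (opT b u) v = b u v := by
  have : opT b u = (InnerProductSpace.toDual ℝ H).symm (b u) := rfl
  rw [this, InnerProductSpace.toDual_symm_apply]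

theorem opT_sq (b : H →L[ℝ] H →L[ℝ] ℝ) (sb : ∀ u v, b u v = b v u) (nb : ∀ v, 0 ≤ b v v)
    (d : H) : ‖opT b d‖ ^ 2 ≤ ‖b‖ * b d d := by
  have h1 : ‖opT b d‖ ^ 2 = b d (opT b d) := by
    rw [← inner_opT b d (opT b d), real_inner_self_eq_norm_sq]
  have h2 := cs_form b sb nb d (opT b d)
  have h3 : b (opT b d) (opT b d) ≤ ‖b‖ * ‖opT b d‖ ^ 2 := by
    have := b.le_opNorm₂ (opT b d) (opT b d)
    have h4 := le_trans (le_abs_self _) this
    rw [Real.norm_eq_abs] at *
    nlinarith [h4]
  rw [← h1] at h2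
  have h5 := nb d
  rcases eq_or_lt_of_le (sq_nonneg ‖opT b d‖) with h0 | h0
  · rw [← h0]
    exact mul_nonneg (norm_nonneg b) h5
  · have h6 : (‖opT b d‖ ^ 2) ^ 2 ≤ (‖b‖ * b d d) * ‖opT b d‖ ^ 2 := by
      calc (‖opT b d‖ ^ 2) ^ 2 ≤ b d d * b (opT b d) (opT b d) := h2
        _ ≤ b d d * (‖b‖ * ‖opT b d‖ ^ 2) := mul_le_mul_of_nonneg_left h3 h5
        _ = (‖b‖ * b d d) * ‖opT b d‖ ^ 2 := by ring
    have h7 : ‖opT b d‖ ^ 2 * ‖opT b d‖ ^ 2 ≤ (‖b‖ * b d d) * ‖opT b d‖ ^ 2 := by
      rw [← sq]; exact h6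
    exact le_of_mul_le_mul_right h7 h0

end

theorem cpt : StCpt := by
  intro H _ _ _ b sb nb cp
  refine ⟨opT b, ?_, ?_, fun u v => inner_opT b u v⟩
  · change IsCompactOperator ((opT b : H →ₗ[ℝ] H) : H → H)
    rw [isCompactOperator_iff_isCompact_closure_image_closedBall (opT b : H →ₗ[ℝ] H)
      (r := 1) one_pos]
    have htb : TotallyBounded ((opT b : H →ₗ[ℝ] H) '' Metric.closedBall 0 1) := by
      rw [Metric.totallyBounded_iff]
      intro ε hε
      set K : ℝ := ‖b‖ + 1 with hK
      have hKp : 0 < K := by positivity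
      obtain ⟨N, l, hl⟩ := cp (ε ^ 2 / (16 * K)) (by positivity)
      set δ : ℝ := Real.sqrt (ε ^ 2 / (4 * K * (N + 1))) with hδ
      have hδp : 0 < δ := Real.sqrt_pos.2 (by positivity)
      have hδ2 : δ ^ 2 = ε ^ 2 / (4 * K * (N + 1)) := Real.sq_sqrt (by positivity)
      let Φ : H →L[ℝ] (Fin N → ℝ) := ContinuousLinearMap.pi l
      have hb : Bornology.IsBounded (Φ '' Metric.closedBall 0 1) :=
        Φ.lipschitz.isBounded_image Metric.isBounded_closedBall
      have htot : TotallyBounded (Φ '' Metric.closedBall (0 : H) 1) :=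
        (hb.isCompact_closure.totallyBounded).subset subset_closure
      obtain ⟨t, hts, htf, htc⟩ := Metric.finite_approx_of_totallyBounded htot δ hδp
      have hch : ∀ y ∈ t, ∃ v ∈ Metric.closedBall (0 : H) 1, Φ v = y := fun y hy => hts hy
      choose! g hg1 hg2 using hch
      refine ⟨(fun y => opT b (g y)) '' t, htf.image _, ?_⟩
      rintro _ ⟨v, hv, rfl⟩
      obtain ⟨y, hy⟩ := mem_iUnion.1 (htc (mem_image_of_mem Φ hv))
      obtain ⟨hyt, hyb⟩ := mem_iUnion.1 hy
      refine mem_iUnion₂.2 ⟨opT b (g y), mem_image_of_mem _ hyt, ?_⟩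
      rw [Metric.mem_ball, dist_eq_norm]
      have e1 : (opT b : H →ₗ[ℝ] H) v - opT b (g y) = opT b (v - g y) := by
        simp
      rw [e1]
      have hd : ‖v - g y‖ ≤ 2 := by
        have h1 : ‖v‖ ≤ 1 := by simpa using hv
        have h2 : ‖g y‖ ≤ 1 := by simpa using hg1 y hyt
        calc ‖v - g y‖ ≤ ‖v‖ + ‖g y‖ := norm_sub_le _ _
          _ ≤ 2 := by linarith
      have hsum : ∑ i, (l i (v - g y)) ^ 2 ≤ N * δ ^ 2 := by
        have : ∀ i ∈ (Finset.univ : Finset (Fin N)), (l i (v - g y)) ^ 2 ≤ δ ^ 2 := by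
          intro i _
          have h1 : dist (Φ v) (Φ (g y)) < δ := by
            rw [hg2 y hyt]; exact hyb
          have h2 : dist (Φ v i) (Φ (g y) i) < δ := lt_of_le_of_lt (dist_le_pi_dist _ _ i) h1
          have h3 : |l i (v - g y)| < δ := by
            rw [map_sub]
            rw [Real.dist_eq] at h2
            exact h2
          rw [← sq_abs]
          exact pow_le_pow_left₀ (abs_nonneg _) h3.le 2
        calc ∑ i, (l i (v - g y)) ^ 2 ≤ ∑ _i : Fin N, δ ^ 2 := Finset.sum_le_sum this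
          _ = N * δ ^ 2 := by simp
      have h4 := hl (v - g y)
      have h5 := opT_sq b sb nb (v - g y)
      have h6 : b (v - g y) (v - g y) ≤ ε ^ 2 / (2 * K) := by
        have h7 : ε ^ 2 / (16 * K) * ‖v - g y‖ ^ 2 ≤ ε ^ 2 / (16 * K) * 4 := by
          apply mul_le_mul_of_nonneg_left _ (by positivity)
          nlinarith [norm_nonneg (v - g y)]
        have h8 : (N : ℝ) * δ ^ 2 ≤ ε ^ 2 / (4 * K) := by
          rw [hδ2]
          rw [← mul_div_assoc, div_le_div_iff₀ (by positivity) (by positivity)]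
          have : (0 : ℝ) ≤ N := Nat.cast_nonneg N
          nlinarith [mul_pos (pow_pos hε 2) hKp]
        have h9 : ε ^ 2 / (16 * K) * 4 + ε ^ 2 / (4 * K) = ε ^ 2 / (2 * K) := by
          field_simp; ring
        linarith
      have h10 : ‖opT b (v - g y)‖ ^ 2 < ε ^ 2 := by
        have h11 : ‖b‖ * b (v - g y) (v - g y) ≤ K * (ε ^ 2 / (2 * K)) := by
          apply mul_le_mul _ h6 (nb _) hKp.le
          rw [hK]; linarith
        have h12 : K * (ε ^ 2 / (2 * K)) = ε ^ 2 / 2 := by field_simp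
        have : 0 < ε ^ 2 := by positivity
        linarith
      exact lt_of_pow_lt_pow_left₀ 2 hε.le h10
    exact htb.closure.isCompact_of_isClosed isClosed_closure
  · intro u v
    change inner ℝ (opT b u) v = inner ℝ u (opT b v)
    rw [inner_opT, real_inner_comm, inner_opT, sb]

end Pool.Agent.Y618.QE
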